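import Pool.Agent.W2helper11.SM.Chern
import Pool.Agent.W2helper15.ET.Clss
import Pool.Agent.W2helper22.ETS.Low2
import Pool.Agent.W2helper28.ETS.Asy
import Pool.Agent.W2helper28.ETS.Up
import Pool.Agent.W2helper69.ETS.Read
import Pool.Agent.W2helper75.ETS.Moms
import Pool.Agent.W2helper86.ETS.Red4

/-!
# Exact Triangle for the subgraphs of a given graph: the exponent is the number of the triangles

The model is the word RAM of `Pool/Agent/W2helper22/SM/Model.lean`: programs with registers and
two-dimensional arrays, words of `O(log n)` bits, unit cost of every symbol of an expression, random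
words with random access. Instances, algorithms (time bound for all outcomes of the random words,
right with probability `≥ 2 / 3`) and patterns: `Pool/Agent/W2helper22/ET/Model.lean`. `ETFast`:
Exact Triangle can be solved in time `n ^ τ`, `τ < 3`, that is, the Exact Triangle hypothesis fails.

Let `0 < θ` and let `G n` be graphs on `n` vertices with `n ^ (θ + o(1))` triangles (any family:
incidence graphs, Cayley graphs, sparse random graphs, graphs of bounded degeneracy, ...). Consider
Exact Triangle for the instances all of whose edges are edges of `G n` (`PatFast`); the weights are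
arbitrary.

1. If the triangles of `G n` can be listed in time `n ^ (θ + o(1))`, then the restricted problem can
   be solved in time `n ^ τ` for every `τ > θ`.
2. If every edge of `G n` is in a triangle, `G n` can be computed in time `n ^ σ`, `σ < 3`, and the
   restricted problem can be solved in time `n ^ τ` for some `τ < θ`, then the Exact Triangle
   hypothesis is false.
3. If `θ = 3` (and `G n` is as in 2), then the restricted hypothesis is equivalent to the Exact
   Triangle hypothesis.

So, under the hypothesis, the exponent is exactly the exponent of the number of triangles, for every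
pattern and every density: no structure of the graph helps.

Proof of 2. The triangles are sorted by the dyadic levels of the degrees (numbers of triangles) of
their vertices and edges. In the largest class the logarithms of the sizes of the projections are
nearly submodular, so a greedy choice gives powers of two `m₁ m₂ m₃ = n ^ (θ - ε)` such that for
random maps of the vertices of the pattern to the three parts of a tripartite graph with `m₁`, `m₂`,
`m₃` vertices every given triple is hit by a triangle of the pattern with probability `≥ 1 / 125`
(second moment). An arbitrary instance is cut into `n ^ 3 / (m₁ m₂ m₃)` triples of blocks of this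
form (all forms are tried), each of them is pulled back to the pattern `400` times along the list of
its edges, each time with `O (log n)` copies of the algorithm (majority). This costs
`n ^ (3 - θ + ε)` times (`n ^ τ` + number of edges); the number of edges is at most `12 n ^ τ` since
the algorithm has to read their weights. The reduction is a program of the word RAM which is
verified here.
-/

set_option autoImplicit false

namespace Pool.Agent.Results.MP_62fbe0_lc.PatternUniversality

open Pool.Agent.W2helper22.ET (Algo Decides ETFast PatFast tri Computes Lists)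

theorem result (G : (n : ℕ) → SimpleGraph (Fin n)) (θ : ℝ) (hθ : 0 < θ)
    (hG : ∀ ε : ℝ, 0 < ε → ∀ᶠ n : ℕ in Filter.atTop,
      (n : ℝ) ^ (θ - ε) ≤ tri (G n) ∧ (tri (G n) : ℝ) ≤ (n : ℝ) ^ (θ + ε)) :
    -- 1. the upper bound
    ((∃ g : Algo, ∀ ε : ℝ, 0 < ε →
        ∀ᶠ n : ℕ in Filter.atTop, Lists g (G n) ((n : ℝ) ^ (θ + ε))) →
      ∀ τ : ℝ, θ < τ → PatFast G τ) ∧
    ((∀ᶠ n : ℕ in Filter.atTop, ∀ x y : Fin n, (G n).Adj x y →
        ∃ z, (G n).Adj y z ∧ (G n).Adj x z) →
      (∃ (g : Algo) (σ : ℝ), σ < 3 ∧
        ∀ᶠ n : ℕ in Filter.atTop, Computes g (G n) ((n : ℝ) ^ σ)) →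
      -- 2. the lower bound
      (∀ τ : ℝ, τ < θ → PatFast G τ → ETFast) ∧
      -- 3. patterns with `n ^ (3 - o(1))` triangles
      (θ = 3 → (ETFast ↔ ∃ τ : ℝ, τ < 3 ∧ PatFast G τ))) := by
  refine ⟨fun hl τ hτ => Pool.Agent.W2helper28.ETS.ups G θ hθ hl τ hτ, fun htri hg => ?_⟩
  have hlow : ∀ τ : ℝ, τ < θ → PatFast G τ → ETFast := fun τ hτ h =>
    Pool.Agent.W2helper22.ETS.lower_ok Pool.Agent.W2helper86.ETS.reds_ok
      Pool.Agent.W2helper11.SM.chern Pool.Agent.W2helper75.ETS.moms
      Pool.Agent.W2helper15.ET.clss Pool.Agent.W2helper28.ETS.asys
      Pool.Agent.W2helper69.ETS.p_read G θ hθ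
      (fun ε hε => by
        filter_upwards [hG ε hε] with n hn
        exact hn.1) htri hg τ hτ h
  refine ⟨hlow, fun h3 => ⟨?_, ?_⟩⟩
  · rintro ⟨A, τ, hτ, hA⟩
    refine ⟨τ, hτ, A, ?_⟩
    filter_upwards [hA] with n hn X _
    exact hn X
  · rintro ⟨τ, hτ, h⟩
    exact hlow τ (by rw [h3]; exact hτ) h

end Pool.Agent.Results.MP_62fbe0_lc.PatternUniversality
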