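import Pool.Agent.W2helper95.TS.Fin
import Pool.Agent.W2helper95.TS.Alt

/-!
# Exact Triangle: cubic lower bounds for random threshold circuits with few alternations

A weight `W e` is given for each pair `e` of the `n` vertices. The circuits (`Net`) have linear
threshold gates of any fan-in, with arbitrary real weights of any sign, and OR gates of any fan-in.
AND, OR, NOT and majority gates are special cases; a negation is a use of a signal with a negative
weight. The inputs of the circuits are the edge flags and any data about the weights (for example
the weights in binary, or the result of any preprocessing of the weights). A random circuit (a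
probability distribution on circuits) decides with gap `δ` whether the graph has a triangle of
total weight zero.

Free of charge are: the OR gates, and all gates which do not depend on the edge flags. The
parameters are the number `A` of the threshold gates which depend on the edge flags, the number
`s` of all gates, which enters the bounds only through `log s`, and the number `D` of the
alternations: along each increasing chain of graphs, at most `D` steps change the value of some
signal which is used with a negative weight.

`result`:

1. for every weight matrix `W` with `ρ n ^ 3` zero-sum triples,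
   `ρ ^ (5 / 2 + ε) * n ^ 3 ≤ c * (D + 1) ^ (3 / 2 + ε) * (A + n) * (log s) ^ 6`;
2. for `D = 0`, for every weight matrix `ρ n ^ 3 ≤ c (A + n) (log s) ^ 6`;
3. for all `n` and `D` there are weights of absolute value at most `2 n` for which
   `n ^ 3 ≤ c * (D + 1) ^ (3 / 2) * (A + n) * (log s) ^ 6`;
4. one can take `D = 2 ^ t - 1` if at most `t` signals which depend on the edge flags are used with
   a negative weight, and `D = t` if these signals are monotone or antitone functions of the edge
   flags (for example if only inputs are negated).

The proof splits the vertices into groups and uses many blocks of edges (from a set without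
arithmetic progressions of length three, or from the weights) such that each zero-sum triangle of
the union is in one block. The blocks are filled one after the other by random complete bipartite
graphs, which gives an increasing chain of graphs without zero-sum triangle. For a block where the
signals with a negative weight do not change, the circuit acts on the block as a monotone circuit,
and an approximation method of Razborov type applies, in which the approximators of the threshold
gates are unions of few cliques.
-/

set_option autoImplicit false

namespace Pool.Agent.Results.MP_62fbe0_lc.ThresholdCircuits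

open Pool.Agent.W2helper95.TS
open Pool.Agent.W2helper95.ET (numZero)

/-- Some random threshold circuit, which reads the edge flags and some data `w` about the weights,
decides with gap `δ` whether a graph has a triangle of total weight zero for the weights `W`; each
circuit which occurs has at most `D` alternations (along each increasing chain of edge flags at
most `D` steps change a signal which is used with a negative weight), at most `A` threshold gates
which depend on the edge flags, and at most `s` gates in all. -/
def Solvable {V : Type} (δ : ℝ) (W : Sym2 V → ℤ) (D A s : ℕ) : Prop :=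
  ∃ (J Ω : Type) (_ : Fintype Ω) (w : J → Bool) (p : Ω → ℝ) (C : Ω → Net (Sym2 V ⊕ J)),
    DecidesW δ W w p C ∧ ∀ ω, Alternates (C ω) w D ∧ flagThr (C ω) ≤ A ∧ (C ω).s ≤ s

/-- Near cubic lower bounds for random threshold circuits with few alternations. -/
theorem result (δ ε : ℝ) (hδ : 0 < δ) (hε : 0 < ε) : ∃ c : ℝ, 0 < c ∧
    (∀ (n : ℕ) (W : Sym2 (Fin n) → ℤ) (D A s : ℕ), Solvable δ W D A s →
      ((numZero W : ℝ) / (n : ℝ) ^ 3) ^ (5 / 2 + ε) * (n : ℝ) ^ 3 ≤
        c * ((D : ℝ) + 1) ^ (3 / 2 + ε) * (((A : ℝ) + n) * (Nat.log 2 (s + 2) : ℝ) ^ 6)) ∧
    (∀ (n : ℕ) (W : Sym2 (Fin n) → ℤ) (A s : ℕ), Solvable δ W 0 A s →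
      (numZero W : ℝ) ≤ c * (((A : ℝ) + n) * (Nat.log 2 (s + 2) : ℝ) ^ 6)) ∧
    (∀ n D : ℕ, ∃ W : Sym2 (Fin n) → ℤ, (∀ e, |W e| ≤ 2 * n) ∧ ∀ A s : ℕ, Solvable δ W D A s →
      (n : ℝ) ^ 3 ≤ c * ((D : ℝ) + 1) ^ (3 / 2 : ℝ) *
        (((A : ℝ) + n) * (Nat.log 2 (s + 2) : ℝ) ^ 6)) ∧
    (∀ (I J : Type) (C : Net (I ⊕ J)) (w : J → Bool) (t : ℕ),
      {a : Fin C.s | Flag C a ∧ C.UsedNeg a}.ncard ≤ t →
      Alternates C w (2 ^ t - 1) ∧
      ((∀ a, Flag C a → C.UsedNeg a →
        (∀ y z : I → Bool, (∀ e, y e = true → z e = true) →
          C.val (Sum.elim y w) a = true → C.val (Sum.elim z w) a = true) ∨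
        (∀ y z : I → Bool, (∀ e, y e = true → z e = true) →
          C.val (Sum.elim z w) a = true → C.val (Sum.elim y w) a = true)) →
        Alternates C w t)) := by
  obtain ⟨c1, hc1, h1⟩ := fin_all hδ hε
  obtain ⟨c2, hc2, h2⟩ := fin_mono hδ
  obtain ⟨c3, hc3, h3⟩ := fin_special hδ
  refine ⟨c1 + c2 + c3, by positivity, ?_, ?_, ?_, ?_⟩
  · rintro n W D A s ⟨J, Ω, _, w, p, C, hdec, hC⟩
    refine (h1 n W Ω p (fun ω => fixC (C ω) w) D A s (fixC_decides hdec)
      (fun ω => fixC_altN (hC ω).1)
      (fun ω => (fixC_numThr (C ω) w).trans (hC ω).2.1) fun ω => (hC ω).2.2).trans ?_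
    gcongr
    linarith
  · rintro n W A s ⟨J, Ω, _, w, p, C, hdec, hC⟩
    refine (h2 n W Ω p (fun ω => fixC (C ω) w) A s (fixC_decides hdec)
      (fun ω => fixC_altN (hC ω).1)
      (fun ω => (fixC_numThr (C ω) w).trans (hC ω).2.1) fun ω => (hC ω).2.2).trans ?_
    gcongr
    linarith
  · intro n D
    obtain ⟨W, hW, h⟩ := h3 n D
    refine ⟨W, hW, ?_⟩
    rintro A s ⟨J, Ω, _, w, p, C, hdec, hC⟩
    refine (h Ω p (fun ω => fixC (C ω) w) A s (fixC_decides hdec)
      (fun ω => fixC_altN (hC ω).1)
      (fun ω => (fixC_numThr (C ω) w).trans (hC ω).2.1) fun ω => (hC ω).2.2).trans ?_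
    gcongr
    linarith
  · intro I J C w t ht
    exact ⟨alternates_two_pow C w ht, alternates_mono C w ht⟩

end Pool.Agent.Results.MP_62fbe0_lc.ThresholdCircuits
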